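import Pool.Agent.MP_435b2a_lc.Defs

namespace Pool.Agent.MP_435b2a_lc.H65

/-- A transition of a one-way machine with a pushdown stack and counters:
((state, letter read or `none` for a move that reads nothing, top stack symbol, zero flags of the
counters), (next state, word replacing the top stack symbol, changes of the counters)). -/
abbrev Trans (k : ℕ) : Type := (ℕ × Option (Fin k) × ℕ × List Bool) × (ℕ × List ℕ × List ℤ)

/-- The finite description of a machine over the alphabet `Fin k`:
(number of counters, initial state, list of final states, list of transitions). -/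
abbrev Mach (k : ℕ) : Type := ℕ × ℕ × List ℕ × List (Trans k)

/-- A configuration: (state, unread input, stack with its top first, values of the counters). -/
abbrev Conf (k : ℕ) : Type := ℕ × List (Fin k) × List ℕ × (ℕ → ℕ)

/-- The start configuration on the input `w`: the stack holds the bottom symbol `0` and all
counters are zero. -/
def start {k : ℕ} (M : Mach k) (w : List (Fin k)) : Conf k := (M.2.1, w, [0], fun _ => 0)

/-- One move. -/
def Move {k : ℕ} (M : Mach k) (c c' : Conf k) : Prop :=
  ∃ (x : Option (Fin k)) (A : ℕ) (rest γ : List ℕ) (δ : List ℤ),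
    ((c.1, x, A, (List.range M.1).map fun i => decide (c.2.2.2 i = 0)), (c'.1, γ, δ)) ∈ M.2.2.2 ∧
    c.2.1 = x.toList ++ c'.2.1 ∧ c.2.2.1 = A :: rest ∧ c'.2.2.1 = γ ++ rest ∧
    ∀ i, (c'.2.2.2 i : ℤ) = c.2.2.2 i + δ.getD i 0

/-- The language accepted by final state. -/
def accepted {k : ℕ} (M : Mach k) : Language (Fin k) :=
  {w | ∃ c : Conf k, Relation.ReflTransGen (Move M) (start M w) c ∧ c.1 ∈ M.2.2.1 ∧ c.2.1 = []}

/-- Every transition lists one change in `{-1, 0, 1}` for each counter, and no two different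
transitions can apply to one configuration. -/
def IsDet {k : ℕ} (M : Mach k) : Prop :=
  (∀ t ∈ M.2.2.2, t.2.2.2.length = M.1 ∧ ∀ d ∈ t.2.2.2, |d| ≤ 1) ∧
  ∀ t ∈ M.2.2.2, ∀ t' ∈ M.2.2.2, t.1.1 = t'.1.1 → t.1.2.2 = t'.1.2.2 →
    (t.1.2.1 = t'.1.2.1 ∨ t.1.2.1 = none ∨ t'.1.2.1 = none) → t = t'

/-- Every counter is `r`-reversal-bounded: no computation has `r + 2` moves, in this order, that
alternately increase and decrease the same counter (counters start at zero, so the first change
is an increase). -/
def RevBounded {k : ℕ} (M : Mach k) (r : ℕ) : Prop :=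
  ∀ (w : List (Fin k)) (n : ℕ) (c : ℕ → Conf k), c 0 = start M w →
    (∀ s < n, Move M (c s) (c (s + 1))) → ∀ (i : ℕ) (t : ℕ → ℕ), StrictMono t → t (r + 1) < n →
      ¬ ∀ j ≤ r + 1, if Even j then (c (t j)).2.2.2 i < (c (t j + 1)).2.2.2 i
        else (c (t j + 1)).2.2.2 i < (c (t j)).2.2.2 i

/-- Deterministic pushdown automaton with finitely many reversal-bounded counters. -/
def IsDPCM {k : ℕ} (M : Mach k) : Prop := IsDet M ∧ ∃ r, RevBounded M r

/-- Deterministic pushdown automaton: no counters. -/
def IsDPDA {k : ℕ} (M : Mach k) : Prop := IsDet M ∧ M.1 = 0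

/-- Deterministic one-counter automaton: a deterministic pushdown automaton whose stack uses one
symbol `1` above the bottom marker `0`. -/
def IsDCA {k : ℕ} (M : Mach k) : Prop :=
  IsDPDA M ∧ ∀ t ∈ M.2.2.2, ∃ j : ℕ,
    (t.1.2.2.1 = 0 ∧ t.2.2.1 = List.replicate j 1 ++ [0]) ∨
    (t.1.2.2.1 = 1 ∧ t.2.2.1 = List.replicate j 1)

/-- Deterministic finite automaton with one 1-reversal-bounded counter: the stack is not used. -/
def IsDCM {k : ℕ} (M : Mach k) : Prop :=
  IsDet M ∧ M.1 = 1 ∧ RevBounded M 1 ∧ ∀ t ∈ M.2.2.2, t.1.2.2.1 = 0 ∧ t.2.2.1 = [0]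

end Pool.Agent.MP_435b2a_lc.H65
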