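import Pool.Agent.MP_435b2a_lc.H65.Defs
import Pool.Agent.MP_435b2a_lc.Mg.Desc

namespace Pool.Agent.MP_435b2a_lc.H65

open Pool.Agent.MP_435b2a_lc

variable {k : ℕ}

/-! ### General facts -/

theorem run_rtg {M : Mach k} {n : ℕ} {c : ℕ → Conf k}
    (h : ∀ s < n, Move M (c s) (c (s + 1))) :
    ∀ a b : ℕ, a ≤ b → b ≤ n → Relation.ReflTransGen (Move M) (c a) (c b) := by
  intro a b hab
  induction b, hab using Nat.le_induction with
  | base => intro _; exact Relation.ReflTransGen.refl
  | succ b _ ih =>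
    intro hb
    exact (ih (by omega)).tail (h b (by omega))

theorem rtg_map {α β : Type} {r : α → α → Prop} {p : β → β → Prop} (f : α → β)
    (hf : ∀ a b, r a b → p (f a) (f b)) {a b : α} (h : Relation.ReflTransGen r a b) :
    Relation.ReflTransGen p (f a) (f b) := by
  induction h with
  | refl => exact Relation.ReflTransGen.refl
  | tail _ hm ih => exact ih.tail (hf _ _ hm)

theorem IsDPDA.isDPCM {M : Mach k} (h : IsDPDA M) : IsDPCM M := by
  refine ⟨h.1, 0, ?_⟩
  intro w n c _ hrun i t ht hn hall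
  have h0 := hall 0 (by omega)
  simp only [Even.zero, if_true] at h0
  have hlt : t 0 < n := lt_trans (ht (by omega)) hn
  obtain ⟨x, A, rest, γ, δ, hm, -, -, -, hc⟩ := hrun (t 0) hlt
  have hl := (h.1.1 _ hm).1
  simp only [h.2] at hl
  have hδ : δ = [] := List.length_eq_zero_iff.mp hl
  have := hc i
  rw [hδ] at this
  simp at this
  omega

theorem IsDCM.isDPCM {M : Mach k} (h : IsDCM M) : IsDPCM M := ⟨h.1, 1, h.2.2.1⟩

/-! ### The counter translation -/

/-- A transition of a one-counter machine as a transition using a counter. -/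
def trC (t : ℕ × Option (Fin k) × Bool × ℕ × ℤ) : Trans k :=
  ((t.1, t.2.1, 0, [t.2.2.1]), (t.2.2.2.1, [0], [t.2.2.2.2]))

/-- A one-counter machine as a machine with one counter. -/
def toC (M : Machine k) : Mach k := (1, M.1, M.2.1, M.2.2.map trC)

def projC (c : Conf k) : ℕ × List (Fin k) × ℕ := (c.1, c.2.1, c.2.2.2 0)

def embC (a : ℕ × List (Fin k) × ℕ) : Conf k :=
  (a.1, a.2.1, [0], fun i => if i = 0 then a.2.2 else 0)

theorem moveC_step {M : Machine k} {c c' : Conf k} (h : Move (toC M) c c') :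
    Step M (projC c) (projC c') ∧ ∀ i, i ≠ 0 → c'.2.2.2 i = c.2.2.2 i := by
  obtain ⟨x, A, rest, γ, δ, hm, hw, -, -, hc⟩ := h
  simp only [toC, List.mem_map] at hm
  obtain ⟨⟨q, y, z, q', d⟩, ht, he⟩ := hm
  simp only [trC, Prod.mk.injEq, List.range_one, List.map_cons, List.map_nil, List.cons.injEq,
    and_true] at he
  obtain ⟨⟨rfl, rfl, -, rfl⟩, rfl, -, rfl⟩ := he
  refine ⟨⟨y, d, ht, hw, ?_⟩, fun i hi => ?_⟩
  · have := hc 0
    simpa [projC] using this
  · have := hc i
    obtain ⟨j, rfl⟩ := Nat.exists_eq_succ_of_ne_zero hi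
    simpa using this

theorem step_moveC {M : Machine k} {a a' : ℕ × List (Fin k) × ℕ} (h : Step M a a') :
    Move (toC M) (embC a) (embC a') := by
  obtain ⟨x, d, hm, hw, hc⟩ := h
  refine ⟨x, 0, [], [0], [d], ?_, hw, rfl, rfl, fun i => ?_⟩
  · simp only [toC, List.mem_map]
    exact ⟨_, hm, by simp [trC, embC]⟩
  · rcases i with _ | i
    · simpa [embC] using hc
    · simp [embC]

theorem rtgC_step {M : Machine k} {c c' : Conf k}
    (h : Relation.ReflTransGen (Move (toC M)) c c') :
    Relation.ReflTransGen (Step M) (projC c) (projC c') :=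
  rtg_map projC (fun _ _ hm => (moveC_step hm).1) h

theorem accepted_toC (M : Machine k) : accepted (toC M) = lang M := by
  ext w
  constructor
  · rintro ⟨⟨q, u, st, cn⟩, h, hq, hu⟩
    simp only at hu
    subst hu
    exact ⟨q, hq, cn 0, rtgC_step h⟩
  · rintro ⟨q, hq, n, h⟩
    refine ⟨embC (q, [], n), ?_, hq, rfl⟩
    have h1 : start (toC M) w = embC (M.1, w, 0) := by
      simp [start, toC, embC]
    rw [h1]
    exact rtg_map embC (fun _ _ hm => step_moveC hm) h

theorem isDCM_toC {M : Machine k} (h : IsDCM11 M) : IsDCM (toC M) := by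
  refine ⟨⟨?_, ?_⟩, rfl, ?_, ?_⟩
  · intro t ht
    simp only [toC, List.mem_map] at ht
    obtain ⟨s, hs, rfl⟩ := ht
    refine ⟨rfl, fun d hd => ?_⟩
    simp only [trC, List.mem_singleton] at hd
    rw [hd]
    exact h.1 s hs
  · intro t ht t' ht' h1 h2 h3
    simp only [toC, List.mem_map] at ht ht'
    obtain ⟨s, hs, rfl⟩ := ht
    obtain ⟨s', hs', rfl⟩ := ht'
    have : s = s' := h.2.1 s hs s' hs' h1 (by simpa [trC] using h2) h3
    rw [this]
  · intro w n c h0 hrun i t ht hn hall
    have h1 := hall 1 (by omega)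
    have h2 := hall 2 (by omega)
    simp only [Nat.not_even_one, if_false] at h1
    simp only [even_two, if_true] at h2
    have h12 : t 1 < t 2 := ht (by omega)
    have hn2 : t 2 < n := hn
    have m1 := moveC_step (hrun (t 1) (by omega))
    have m2 := moveC_step (hrun (t 2) hn2)
    by_cases hi : i = 0
    · subst hi
      have r1 := rtgC_step (run_rtg hrun 0 (t 1) (by omega) (by omega))
      have r2 := rtgC_step (run_rtg hrun (t 1 + 1) (t 2) (by omega) (by omega))
      rw [h0] at r1
      have := h.2.2 w _ _ _ _ r1 m1.1 r2 m2.1 h1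
      simp only [projC] at this
      omega
    · have := m1.2 i hi
      omega
  · intro t ht
    simp only [toC, List.mem_map] at ht
    obtain ⟨s, hs, rfl⟩ := ht
    exact ⟨rfl, rfl⟩

theorem primrec_toC : Primrec (toC : Machine k → Mach k) := by
  unfold toC
  refine (Primrec.const 1).pair (Primrec.fst.pair ((Primrec.fst.comp Primrec.snd).pair ?_))
  refine Primrec.list_map (Primrec.snd.comp Primrec.snd) ?_
  have h : Primrec (trC : ℕ × Option (Fin k) × Bool × ℕ × ℤ → Trans k) := by
    unfold trC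
    refine Primrec.pair (Primrec.fst.pair ((Primrec.fst.comp Primrec.snd).pair
      ((Primrec.const 0).pair ?_))) (Primrec.pair ?_ ((Primrec.const [0]).pair ?_))
    · exact Primrec.list_cons.comp (Primrec.fst.comp (Primrec.snd.comp Primrec.snd))
        (Primrec.const [])
    · exact Primrec.fst.comp (Primrec.snd.comp (Primrec.snd.comp Primrec.snd))
    · exact Primrec.list_cons.comp
        (Primrec.snd.comp (Primrec.snd.comp (Primrec.snd.comp Primrec.snd))) (Primrec.const [])
  exact (h.comp Primrec.snd).to₂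

/-! ### The stack translation -/

/-- The word replacing the top symbol. -/
def push (z : Bool) (d : ℤ) : List ℕ :=
  if z = true then (if d = 1 then [1, 0] else [0])
  else (if d = 1 then [1, 1] else if d = 0 then [1] else [])

/-- A transition of a one-counter machine as a transition using the stack. -/
def trS (t : ℕ × Option (Fin k) × Bool × ℕ × ℤ) : Option (Trans k) :=
  if t.2.2.1 = true ∧ t.2.2.2.2 = -1 then none
  else some ((t.1, t.2.1, if t.2.2.1 = true then 0 else 1, []),
    (t.2.2.2.1, push t.2.2.1 t.2.2.2.2, []))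

/-- A one-counter machine as a pushdown automaton. -/
def toS (M : Machine k) : Mach k := (0, M.1, M.2.1, M.2.2.filterMap trS)

def embS (a : ℕ × List (Fin k) × ℕ) : Conf k :=
  (a.1, a.2.1, List.replicate a.2.2 1 ++ [0], fun _ => 0)

theorem mem_toS {M : Machine k} {t : Trans k} (h : t ∈ (toS M).2.2.2) :
    ∃ s ∈ M.2.2, ¬ (s.2.2.1 = true ∧ s.2.2.2.2 = -1) ∧
      t = ((s.1, s.2.1, if s.2.2.1 = true then 0 else 1, []),
        (s.2.2.2.1, push s.2.2.1 s.2.2.2.2, [])) := by
  simp only [toS, List.mem_filterMap] at h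
  obtain ⟨s, hs, he⟩ := h
  unfold trS at he
  split_ifs at he with h1
  all_goals
    refine ⟨s, hs, h1, ?_⟩
    simp only [Option.some.injEq] at he
    rw [← he]
    simp [*]

theorem moveS_step {M : Machine k} (hM : ∀ t ∈ M.2.2, |t.2.2.2.2| ≤ 1)
    {a : ℕ × List (Fin k) × ℕ} {c' : Conf k} (h : Move (toS M) (embS a) c') :
    ∃ a', c' = embS a' ∧ Step M a a' := by
  obtain ⟨x, A, rest, γ, δ, hm, hw, hs, hs', hc⟩ := h
  obtain ⟨⟨q, y, z, q', d⟩, ht, hne, he⟩ := mem_toS hm
  obtain ⟨p, w, n⟩ := a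
  obtain ⟨p', w', st', cn'⟩ := c'
  simp only [embS, Prod.mk.injEq] at he hw hs hs' hc hne
  obtain ⟨⟨rfl, rfl, hA, -⟩, rfl, rfl, rfl⟩ := he
  have hcn : cn' = fun _ => 0 := by
    funext i
    have := hc i
    simpa using this
  have hd := hM _ ht
  simp only at hd
  have hd' : d = 1 ∨ d = 0 ∨ d = -1 := by
    rw [abs_le] at hd
    omega
  rcases n with _ | n
  · simp only [List.replicate_zero, List.nil_append, List.cons.injEq] at hs
    obtain ⟨hA0, hrest⟩ := hs
    have hz : z = true := by
      by_contra hz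
      simp [hz] at hA
      omega
    subst hz
    subst hrest
    rcases hd' with rfl | rfl | rfl
    · refine ⟨(p', w', 1), ?_, x, 1, by simpa using ht, hw, by simp⟩
      simp [embS, hcn, hs', push]
    · refine ⟨(p', w', 0), ?_, x, 0, by simpa using ht, hw, by simp⟩
      simp [embS, hcn, hs', push]
    · simp at hne
  · simp only [List.replicate_succ, List.cons_append, List.cons.injEq] at hs
    obtain ⟨hA0, hrest⟩ := hs
    have hz : z = false := by
      by_contra hz
      simp only [Bool.not_eq_false] at hz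
      simp [hz] at hA
      omega
    subst hz
    subst hrest
    rcases hd' with rfl | rfl | rfl
    · refine ⟨(p', w', n + 2), ?_, x, 1, by simpa using ht, hw, by simp; ring⟩
      simp [embS, hcn, hs', push, List.replicate_succ]
    · refine ⟨(p', w', n + 1), ?_, x, 0, by simpa using ht, hw, by simp⟩
      simp [embS, hcn, hs', push, List.replicate_succ]
    · refine ⟨(p', w', n), ?_, x, -1, by simpa using ht, hw, by simp⟩
      simp [embS, hcn, hs', push]

theorem step_moveS {M : Machine k} (hM : ∀ t ∈ M.2.2, |t.2.2.2.2| ≤ 1)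
    {a a' : ℕ × List (Fin k) × ℕ} (h : Step M a a') :
    Move (toS M) (embS a) (embS a') := by
  obtain ⟨x, d, hm, hw, hc⟩ := h
  obtain ⟨p, w, n⟩ := a
  obtain ⟨p', w', n'⟩ := a'
  have hd := hM _ hm
  simp only at hd hm hw hc
  have hd' : d = 1 ∨ d = 0 ∨ d = -1 := by
    rw [abs_le] at hd
    omega
  rcases n with _ | n
  · refine ⟨x, 0, [], push true d, [], ?_, hw, rfl, ?_, fun i => by simp [embS]⟩
    · simp only [toS, List.mem_filterMap]
      refine ⟨_, hm, ?_⟩
      have : d ≠ -1 := by omega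
      simp [trS, embS, this]
    · rcases hd' with rfl | rfl | rfl
      · have : n' = 1 := by omega
        simp [embS, push, this]
      · have : n' = 0 := by omega
        simp [embS, push, this]
      · omega
  · refine ⟨x, 1, List.replicate n 1 ++ [0], push false d, [], ?_, hw, rfl, ?_,
      fun i => by simp [embS]⟩
    · simp only [toS, List.mem_filterMap]
      refine ⟨_, hm, ?_⟩
      simp [trS, embS]
    · rcases hd' with rfl | rfl | rfl
      · have : n' = n + 2 := by omega
        simp [embS, push, this, List.replicate_succ]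
      · have : n' = n + 1 := by omega
        simp [embS, push, this, List.replicate_succ]
      · have : n' = n := by omega
        simp [embS, push, this]

theorem rtgS_step {M : Machine k} (hM : ∀ t ∈ M.2.2, |t.2.2.2.2| ≤ 1)
    {a : ℕ × List (Fin k) × ℕ} {c' : Conf k}
    (h : Relation.ReflTransGen (Move (toS M)) (embS a) c') :
    ∃ a', c' = embS a' ∧ Relation.ReflTransGen (Step M) a a' := by
  induction h with
  | refl => exact ⟨a, rfl, Relation.ReflTransGen.refl⟩
  | tail _ hm ih =>
    obtain ⟨b, rfl, hb⟩ := ih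
    obtain ⟨b', rfl, hb'⟩ := moveS_step hM hm
    exact ⟨b', rfl, hb.tail hb'⟩

theorem accepted_toS {M : Machine k} (hM : ∀ t ∈ M.2.2, |t.2.2.2.2| ≤ 1) :
    accepted (toS M) = lang M := by
  ext w
  have h1 : start (toS M) w = embS (M.1, w, 0) := by
    simp [start, toS, embS]
  constructor
  · rintro ⟨c, h, hq, hu⟩
    rw [h1] at h
    obtain ⟨⟨q, u, n⟩, rfl, hb⟩ := rtgS_step hM h
    simp only [embS] at hu hq
    subst hu
    exact ⟨q, hq, n, hb⟩
  · rintro ⟨q, hq, n, h⟩
    refine ⟨embS (q, [], n), ?_, hq, rfl⟩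
    rw [h1]
    exact rtg_map embS (fun _ _ hm => step_moveS hM hm) h

theorem isDCA_toS {M : Machine k}
    (h : ∀ t ∈ M.2.2, ∀ t' ∈ M.2.2, t.1 = t'.1 → t.2.2.1 = t'.2.2.1 →
      (t.2.1 = t'.2.1 ∨ t.2.1 = none ∨ t'.2.1 = none) → t = t') : IsDCA (toS M) := by
  refine ⟨⟨⟨?_, ?_⟩, rfl⟩, ?_⟩
  · intro t ht
    obtain ⟨s, hs, -, rfl⟩ := mem_toS ht
    exact ⟨rfl, fun d hd => by simp at hd⟩
  · intro t ht t' ht' h1 h2 h3
    obtain ⟨s, hs, -, rfl⟩ := mem_toS ht
    obtain ⟨s', hs', -, rfl⟩ := mem_toS ht'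
    have hz : s.2.2.1 = s'.2.2.1 := by
      simp only [Prod.mk.injEq, and_true] at h2
      cases h : s.2.2.1 <;> cases h' : s'.2.2.1 <;> simp_all
    have : s = s' := h s hs s' hs' h1 hz h3
    rw [this]
  · intro t ht
    obtain ⟨⟨q, y, z, q', d⟩, hs, -, rfl⟩ := mem_toS ht
    cases z
    · by_cases h1 : d = 1
      · exact ⟨2, Or.inr ⟨by simp, by simp [push, h1]⟩⟩
      · by_cases h0 : d = 0
        · exact ⟨1, Or.inr ⟨by simp, by simp [push, h0]⟩⟩
        · exact ⟨0, Or.inr ⟨by simp, by simp [push, h0, h1]⟩⟩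
    · by_cases h1 : d = 1
      · exact ⟨1, Or.inl ⟨by simp, by simp [push, h1]⟩⟩
      · exact ⟨0, Or.inl ⟨by simp, by simp [push, h1]⟩⟩

theorem primrec_toS : Primrec (toS : Machine k → Mach k) := by
  unfold toS
  refine (Primrec.const 0).pair (Primrec.fst.pair ((Primrec.fst.comp Primrec.snd).pair ?_))
  refine Primrec.listFilterMap (Primrec.snd.comp Primrec.snd) ?_
  have hz : Primrec (fun t : ℕ × Option (Fin k) × Bool × ℕ × ℤ => t.2.2.1) :=
    Primrec.fst.comp (Primrec.snd.comp Primrec.snd)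
  have hd : Primrec (fun t : ℕ × Option (Fin k) × Bool × ℕ × ℤ => t.2.2.2.2) :=
    Primrec.snd.comp (Primrec.snd.comp (Primrec.snd.comp Primrec.snd))
  have hzt : PrimrecPred (fun t : ℕ × Option (Fin k) × Bool × ℕ × ℤ => t.2.2.1 = true) :=
    Primrec.eq.comp hz (Primrec.const true)
  have hdc : ∀ e : ℤ, PrimrecPred (fun t : ℕ × Option (Fin k) × Bool × ℕ × ℤ => t.2.2.2.2 = e) :=
    fun e => Primrec.eq.comp hd (Primrec.const e)
  have hp : Primrec (fun t : ℕ × Option (Fin k) × Bool × ℕ × ℤ => push t.2.2.1 t.2.2.2.2) := by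
    unfold push
    exact Primrec.ite hzt (Primrec.ite (hdc 1) (Primrec.const _) (Primrec.const _))
      (Primrec.ite (hdc 1) (Primrec.const _)
        (Primrec.ite (hdc 0) (Primrec.const _) (Primrec.const _)))
  have h : Primrec (trS : ℕ × Option (Fin k) × Bool × ℕ × ℤ → Option (Trans k)) := by
    unfold trS
    refine Primrec.ite (hzt.and (hdc (-1))) (Primrec.const _) (Primrec.option_some.comp ?_)
    refine Primrec.pair (Primrec.fst.pair ((Primrec.fst.comp Primrec.snd).pair
      (Primrec.pair ?_ (Primrec.const _)))) (Primrec.pair ?_ (hp.pair (Primrec.const _)))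
    · exact Primrec.ite hzt (Primrec.const _) (Primrec.const _)
    · exact Primrec.fst.comp (Primrec.snd.comp (Primrec.snd.comp Primrec.snd))
  exact (h.comp Primrec.snd).to₂

/-! ### Regular languages -/

theorem exists_machine_of_regular {L : Language (Fin k)} (hL : L.IsRegular) :
    ∃ M : Machine k, (∀ t ∈ M.2.2, |t.2.2.2.2| ≤ 1) ∧
      (∀ t ∈ M.2.2, ∀ t' ∈ M.2.2, t.1 = t'.1 → t.2.2.1 = t'.2.2.1 →
        (t.2.1 = t'.2.1 ∨ t.2.1 = none ∨ t'.2.1 = none) → t = t') ∧ lang M = L := by
  classical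
  obtain ⟨σ, _, D, rfl⟩ := hL
  let e : σ → ℕ := fun s => (Fintype.equivFin σ s : ℕ)
  have he : Function.Injective e := fun s s' h =>
    (Fintype.equivFin σ).injective (Fin.ext h)
  let T : List (ℕ × Option (Fin k) × Bool × ℕ × ℤ) :=
    (Finset.univ : Finset (σ × Fin k)).toList.map fun p =>
      (e p.1, some p.2, true, e (D.step p.1 p.2), 0)
  have hT : ∀ t, t ∈ T ↔ ∃ s a, t = (e s, some a, true, e (D.step s a), 0) := by
    intro t
    simp only [T, List.mem_map, Finset.mem_toList, Finset.mem_univ, true_and, Prod.exists]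
    exact ⟨fun ⟨s, a, h⟩ => ⟨s, a, h.symm⟩, fun ⟨s, a, h⟩ => ⟨s, a, h.symm⟩⟩
  let F : List ℕ := ((Finset.univ : Finset σ).filter fun s => s ∈ D.accept).toList.map e
  have hF : ∀ q, q ∈ F ↔ ∃ s ∈ D.accept, q = e s := by
    intro q
    simp only [F, List.mem_map, Finset.mem_toList, Finset.mem_filter, Finset.mem_univ, true_and]
    exact ⟨fun ⟨s, h, h'⟩ => ⟨s, h, h'.symm⟩, fun ⟨s, h, h'⟩ => ⟨s, h, h'.symm⟩⟩
  refine ⟨(e D.start, F, T), ?_, ?_, ?_⟩
  · intro t ht
    obtain ⟨s, a, rfl⟩ := (hT t).mp ht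
    simp
  · intro t ht t' ht' h1 _ h3
    obtain ⟨s, a, rfl⟩ := (hT t).mp ht
    obtain ⟨s', a', rfl⟩ := (hT t').mp ht'
    have hs : s = s' := he h1
    have ha : a = a' := by simpa using h3
    rw [hs, ha]
  · have fwd : ∀ (w : List (Fin k)) (s : σ) (q n : ℕ),
        Relation.ReflTransGen (Step ((e D.start, F, T) : Machine k)) (e s, w, 0) (q, [], n) →
          q = e (D.evalFrom s w) := by
      intro w
      induction w with
      | nil =>
        intro s q n h
        rcases h.cases_head with h | ⟨c, ⟨x, d, hm, hw, -⟩, -⟩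
        · simp only [Prod.mk.injEq] at h
          simp [← h.1]
        · obtain ⟨s', a, h⟩ := (hT _).mp hm
          simp only [Prod.mk.injEq] at h
          rw [h.2.1] at hw
          simp at hw
      | cons b w ih =>
        intro s q n h
        rcases h.cases_head with h | ⟨⟨p, u, m⟩, ⟨x, d, hm, hw, hc⟩, hr⟩
        · simp at h
        · obtain ⟨s', a, h⟩ := (hT _).mp hm
          simp only [Prod.mk.injEq] at h
          obtain ⟨h1, rfl, -, rfl, rfl⟩ := h
          have hs : s = s' := he h1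
          subst hs
          simp only [Option.toList_some, List.cons_append, List.nil_append, List.cons.injEq] at hw
          obtain ⟨rfl, rfl⟩ := hw
          have hm0 : m = 0 := by simpa using hc
          subst hm0
          rw [ih _ q n hr]
          rfl
    have bwd : ∀ (w : List (Fin k)) (s : σ),
        Relation.ReflTransGen (Step ((e D.start, F, T) : Machine k)) (e s, w, 0)
          (e (D.evalFrom s w), [], 0) := by
      intro w
      induction w with
      | nil => intro s; exact Relation.ReflTransGen.refl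
      | cons b w ih =>
        intro s
        refine Relation.ReflTransGen.head (b := (e (D.step s b), w, 0)) ?_ (ih _)
        exact ⟨some b, 0, (hT _).mpr ⟨s, b, by simp⟩, by simp, by simp⟩
    ext w
    constructor
    · rintro ⟨q, hq, n, h⟩
      obtain ⟨s, hs, rfl⟩ := (hF q).mp hq
      have := he (fwd w _ _ _ h)
      rw [this] at hs
      exact hs
    · intro hw
      exact ⟨_, (hF _).mpr ⟨_, hw, rfl⟩, 0, bwd w _⟩

/-! ### The theorem -/

theorem main' : ∃ (k : ℕ) (M₁ : Mach k), (accepted M₁).IsRegular ∧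
    IsDCA M₁ ∧ IsDPDA M₁ ∧ IsDPCM M₁ ∧
      ∀ P ∈ ({IsDCM, IsDCA, IsDPDA, IsDPCM} : Set (Mach k → Prop)),
        ¬ ∃ f : Mach k → Bool, Computable f ∧ ∀ M₂ : Mach k, P M₂ →
          (f M₂ = true ↔ (⊤ : Language (Fin k)) = shuffle (accepted M₁) (accepted M₂)) := by
  obtain ⟨k, L₁, desc, S, hL, hc, hS, h⟩ := main
  obtain ⟨N, hN1, hN2, hN3⟩ := exists_machine_of_regular hL
  have hA : accepted (toS N) = L₁ := by rw [accepted_toS hN1, hN3]
  have hD : IsDCA (toS N) := isDCA_toS hN2
  refine ⟨k, toS N, hA ▸ hL, hD, hD.1, hD.1.isDPCM, ?_⟩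
  have key : ∀ (P : Mach k → Prop) (g : Machine k → Mach k), Primrec g →
      (∀ M, IsDCM11 M → P (g M) ∧ accepted (g M) = lang M) →
      ¬ ∃ f : Mach k → Bool, Computable f ∧ ∀ M₂ : Mach k, P M₂ →
          (f M₂ = true ↔ (⊤ : Language (Fin k)) = shuffle (accepted (toS N)) (accepted M₂)) := by
    rintro P g hg hP ⟨f, hf, hM⟩
    refine hS (ComputablePred.computable_iff.mpr
      ⟨fun n => !f (g (desc n)), Primrec.not.to_comp.comp (hf.comp (hg.to_comp.comp hc)), ?_⟩)
    ext n
    rw [Bool.not_eq_true', ← Bool.not_eq_true, hM _ (hP _ (h n).1).1, (hP _ (h n).1).2, hA,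
      (h n).2, not_not]
  intro P hP
  simp only [Set.mem_insert_iff, Set.mem_singleton_iff] at hP
  rcases hP with rfl | rfl | rfl | rfl
  · exact key _ toC primrec_toC fun M hM => ⟨isDCM_toC hM, accepted_toC M⟩
  · exact key _ toS primrec_toS fun M hM => ⟨isDCA_toS hM.2.1, accepted_toS hM.1⟩
  · exact key _ toS primrec_toS fun M hM => ⟨(isDCA_toS hM.2.1).1, accepted_toS hM.1⟩
  · exact key _ toS primrec_toS fun M hM => ⟨(isDCA_toS hM.2.1).1.isDPCM, accepted_toS hM.1⟩

end Pool.Agent.MP_435b2a_lc.H65
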